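import Pool.Agent.Helper72.EP.Spec2

set_option autoImplicit false

/-! Module CA: cycle calculus. -/

namespace ErdPos

open Finset

variable {V : Type} [DecidableEq V] {G : SimpleGraph V}

theorem ca_of {S : Finset V} {T : Finset (Sym2 V)} (h : Cyc G S T) :
    ∃ (a b : V) (T' : Finset (Sym2 V)), G.Adj a b ∧ Pth G b a S T' ∧ s(a, b) ∉ T' ∧
      T = insert s(a, b) T' := by
  obtain ⟨a, p, hp, hS, hT⟩ := h
  cases p with
  | nil => exact absurd rfl hp.ne_nil
  | @cons _ b _ h q =>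
    rw [SimpleGraph.Walk.cons_isCycle_iff] at hp
    refine ⟨a, b, q.edges.toFinset, h, ⟨q, hp.1, ?_, rfl⟩, ?_, ?_⟩
    · rw [← hS, SimpleGraph.Walk.support_cons, List.toFinset_cons, Finset.insert_eq_self.2]
      rw [List.mem_toFinset]
      exact q.end_mem_support
    · rw [List.mem_toFinset]
      exact hp.2
    · rw [← hT, SimpleGraph.Walk.edges_cons, List.toFinset_cons]

theorem ca_mk {a b : V} {S : Finset V} {T : Finset (Sym2 V)} (hab : G.Adj a b)
    (h : Pth G b a S T) (hn : s(a, b) ∉ T) : Cyc G S (insert s(a, b) T) := by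
  obtain ⟨q, hq, hS, hT⟩ := h
  refine ⟨a, SimpleGraph.Walk.cons hab q, ?_, ?_, ?_⟩
  · rw [SimpleGraph.Walk.cons_isCycle_iff]
    refine ⟨hq, fun h => hn ?_⟩
    rw [← hT, List.mem_toFinset]
    exact h
  · rw [SimpleGraph.Walk.support_cons, List.toFinset_cons, ← hS, Finset.insert_eq_self.2]
    rw [List.mem_toFinset]
    exact q.end_mem_support
  · rw [SimpleGraph.Walk.edges_cons, List.toFinset_cons, hT]

theorem ca_mk2 (hP : PApi G) (a b : V) (S : Finset V) (T : Finset (Sym2 V)) (S' : Finset V)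
    (T' : Finset (Sym2 V)) (h : Pth G a b S T) (h' : Pth G a b S' T') (hab : a ≠ b)
    (hSS : S ∩ S' ⊆ {a, b}) (hTT : T ≠ T') :
    Cyc G (S ∪ S') (T ∪ T') ∧ Disjoint T T' := by
  have hd : Disjoint T T' := by
    rw [Finset.disjoint_left]
    intro e he he'
    obtain ⟨x, hx, y, hy, hxy, rfl⟩ := hP.tmem a b S T h e he
    obtain ⟨x', hx', y', hy', _, hE⟩ := hP.tmem a b S' T' h' _ he'
    have hx2 : x ∈ S' := by
      rcases Sym2.eq_iff.1 hE with ⟨h1, _⟩ | ⟨h1, _⟩
      · rw [h1]; exact hx'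
      · rw [h1]; exact hy'
    have hy2 : y ∈ S' := by
      rcases Sym2.eq_iff.1 hE with ⟨_, h1⟩ | ⟨_, h1⟩
      · rw [h1]; exact hy'
      · rw [h1]; exact hx'
    have hx3 := hSS (mem_inter.2 ⟨hx, hx2⟩)
    have hy3 := hSS (mem_inter.2 ⟨hy, hy2⟩)
    rw [mem_insert, mem_singleton] at hx3 hy3
    have hne := hxy.ne
    have hs : s(x, y) = s(a, b) := by
      rcases hx3 with rfl | rfl <;> rcases hy3 with rfl | rfl
      · exact absurd rfl hne
      · rfl
      · exact Sym2.eq_swap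
      · exact absurd rfl hne
    rw [hs] at he he'
    exact hTT ((hP.single a b S T h hab (Or.inl he)).2.trans
      (hP.single a b S' T' h' hab (Or.inl he')).2.symm)
  refine ⟨?_, hd⟩
  obtain ⟨x, S2, T2, hax, hp, haS, hS', hT', hn⟩ := hP.step a b S' T' h' hab
  have hcap : S2 ∩ S ⊆ {b} := by
    intro y hy
    rw [mem_inter] at hy
    have h1 : y ∈ S' := by rw [hS']; exact mem_insert_of_mem hy.1
    have h2 := hSS (mem_inter.2 ⟨hy.2, h1⟩)
    rw [mem_insert, mem_singleton] at h2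
    rcases h2 with h2 | h2
    · rw [h2] at hy
      exact absurd hy.1 haS
    · exact mem_singleton.2 h2
  have hc := (hP.concat x b a S2 T2 S T hp h.symm hcap).1
  have hn2 : s(a, x) ∉ T2 ∪ T := by
    rw [mem_union, not_or]
    refine ⟨hn, fun h1 => ?_⟩
    exact Finset.disjoint_left.1 hd h1 (by rw [hT']; exact mem_insert_self _ _)
  have hcy := ca_mk hax hc hn2
  have e1 : S2 ∪ S = S ∪ S' := by
    rw [hS', union_insert, union_comm S S2, Finset.insert_eq_self.2]
    exact mem_union_right _ (hP.ends a b S T h).1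
  have e2 : insert s(a, x) (T2 ∪ T) = T ∪ T' := by
    rw [hT', union_insert, union_comm]
  rw [e1, e2] at hcy
  exact hcy

theorem ca_split1 (hP : PApi G) {u v a b : V} {S1 S2 : Finset V} {T1 T2 : Finset (Sym2 V)}
    (huv : G.Adj u v) (h1 : Pth G v a S1 T1) (h2 : Pth G a u S2 T2) (hS : S1 ∩ S2 = {a})
    (hT : Disjoint T1 T2) (hn : s(u, v) ∉ T1 ∪ T2) (hb : b ∈ S2) (hab : a ≠ b) :
    ∃ S3 T3 S4 T4, Pth G a b S3 T3 ∧ Pth G a b S4 T4 ∧ S3 ∩ S4 = {a, b} ∧
      S3 ∪ S4 = S1 ∪ S2 ∧ Disjoint T3 T4 ∧ T3 ∪ T4 = insert s(u, v) (T1 ∪ T2) := by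
  obtain ⟨S3, T3, S4, T4, h3, h4, h5, h6, h7, h8⟩ := hP.split a u b S2 T2 h2 hb
  have ha3 : a ∈ S3 := (hP.ends _ _ _ _ h3).1
  have hb3 : b ∈ S3 := (hP.ends _ _ _ _ h3).2
  have hb4 : b ∈ S4 := (hP.ends _ _ _ _ h4).1
  have hu4 : u ∈ S4 := (hP.ends _ _ _ _ h4).2
  have hv1 : v ∈ S1 := (hP.ends _ _ _ _ h1).1
  have ha1 : a ∈ S1 := (hP.ends _ _ _ _ h1).2
  have ha4 : a ∉ S4 := by
    intro h
    have h9 : a ∈ S3 ∩ S4 := mem_inter.2 ⟨ha3, h⟩
    rw [h5, mem_singleton] at h9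
    exact hab h9
  have hd14 : ∀ y, y ∈ S1 → y ∈ S4 → False := by
    intro y hy1 hy4
    have hy2 : y ∈ S2 := by rw [← h6]; exact mem_union_right _ hy4
    have h9 : y ∈ S1 ∩ S2 := mem_inter.2 ⟨hy1, hy2⟩
    rw [hS, mem_singleton] at h9
    rw [h9] at hy4
    exact ha4 hy4
  have hd13 : ∀ y, y ∈ S1 → y ∈ S3 → y = a := by
    intro y hy1 hy3
    have hy2 : y ∈ S2 := by rw [← h6]; exact mem_union_left _ hy3
    have h9 : y ∈ S1 ∩ S2 := mem_inter.2 ⟨hy1, hy2⟩
    rw [hS, mem_singleton] at h9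
    exact h9
  have c1 := (hP.concat a v u S1 T1 {v, u} {s(v, u)} h1.symm (hP.edge v u huv.symm) (by
    intro y hy
    rw [mem_inter, mem_insert, mem_singleton] at hy
    rcases hy.2 with h | h
    · exact mem_singleton.2 h
    · rw [h] at hy
      exact (hd14 u hy.1 hu4).elim)).1
  have c2 := (hP.concat a u b _ _ S4 T4 c1 h4.symm (by
    intro y hy
    rw [mem_inter, mem_union, mem_insert, mem_singleton] at hy
    rcases hy.1 with h | h | h
    · exact (hd14 y h hy.2).elim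
    · rw [h] at hy
      exact (hd14 v hv1 hy.2).elim
    · exact mem_singleton.2 h)).1
  refine ⟨S3, T3, _, _, h3, c2, ?_, ?_, ?_, ?_⟩
  · ext y
    simp only [mem_inter, mem_union, mem_insert, mem_singleton]
    constructor
    · rintro ⟨hy3, (hy | hy | hy) | hy⟩
      · exact Or.inl (hd13 y hy hy3)
      · rw [hy] at hy3 ⊢
        exact Or.inl (hd13 v hv1 hy3)
      · rw [hy] at hy3 ⊢
        have h9 : u ∈ S3 ∩ S4 := mem_inter.2 ⟨hy3, hu4⟩
        rw [h5, mem_singleton] at h9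
        exact Or.inr h9
      · have h9 : y ∈ S3 ∩ S4 := mem_inter.2 ⟨hy3, hy⟩
        rw [h5, mem_singleton] at h9
        exact Or.inr h9
    · rintro (hy | hy)
      · rw [hy]
        exact ⟨ha3, Or.inl (Or.inl ha1)⟩
      · rw [hy]
        exact ⟨hb3, Or.inr hb4⟩
  · rw [← h6]
    ext y
    simp only [mem_union, mem_insert, mem_singleton]
    constructor
    · rintro (hy | (hy | hy | hy) | hy)
      · exact Or.inr (Or.inl hy)
      · exact Or.inl hy
      · rw [hy]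
        exact Or.inl hv1
      · rw [hy]
        exact Or.inr (Or.inr hu4)
      · exact Or.inr (Or.inr hy)
    · rintro (hy | hy | hy)
      · exact Or.inr (Or.inl (Or.inl hy))
      · exact Or.inl hy
      · exact Or.inr (Or.inr hy)
  · rw [Finset.disjoint_left]
    intro e he he'
    have he2 : e ∈ T2 := by rw [← h8]; exact mem_union_left _ he
    rw [mem_union, mem_union, mem_singleton] at he'
    rcases he' with (h | h) | h
    · exact Finset.disjoint_left.1 hT h he2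
    · rw [h, Sym2.eq_swap] at he2
      exact hn (mem_union_right _ he2)
    · exact Finset.disjoint_left.1 h7 he h
  · rw [← h8]
    ext e
    simp only [mem_union, mem_insert, mem_singleton]
    have h9 : s(v, u) = s(u, v) := Sym2.eq_swap
    rw [h9]
    tauto

theorem ca_split (hP : PApi G) (a b : V) (S : Finset V) (T : Finset (Sym2 V)) (h : Cyc G S T)
    (ha : a ∈ S) (hb : b ∈ S) (hab : a ≠ b) : ∃ S1 T1 S2 T2, Pth G a b S1 T1 ∧
    Pth G a b S2 T2 ∧ S1 ∩ S2 = {a, b} ∧ S1 ∪ S2 = S ∧ Disjoint T1 T2 ∧ T1 ∪ T2 = T := by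
  obtain ⟨u, v, T', huv, hp, hn, hT⟩ := ca_of h
  obtain ⟨S1, T1, S2, T2, h1, h2, h3, h4, h5, h6⟩ := hP.split v u a S T' hp ha
  rw [← h4, mem_union] at hb
  rcases hb with hb | hb
  · obtain ⟨S3, T3, S4, T4, k1, k2, k3, k4, k5, k6⟩ := ca_split1 hP huv.symm h2.symm h1.symm
      (by rw [inter_comm]; exact h3) h5.symm (by
        rw [union_comm, h6, Sym2.eq_swap]
        exact hn) hb hab
    refine ⟨S3, T3, S4, T4, k1, k2, k3, ?_, k5, ?_⟩
    · rw [k4, union_comm, h4]
    · rw [k6, union_comm T2, h6, hT]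
      congr 1
      exact Sym2.eq_swap
  · obtain ⟨S3, T3, S4, T4, k1, k2, k3, k4, k5, k6⟩ := ca_split1 hP huv h1 h2 h3 h5
      (by rw [h6]; exact hn) hb hab
    refine ⟨S3, T3, S4, T4, k1, k2, k3, ?_, k5, ?_⟩
    · rw [k4, h4]
    · rw [k6, h6, hT]

theorem ca_tmem (hP : PApi G) (S : Finset V) (T : Finset (Sym2 V)) (h : Cyc G S T) :
    ∀ e ∈ T, ∃ x ∈ S, ∃ y ∈ S, G.Adj x y ∧ e = s(x, y) := by
  obtain ⟨u, v, T', huv, hp, hn, hT⟩ := ca_of h
  intro e he
  rw [hT, mem_insert] at he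
  rcases he with he | he
  · exact ⟨u, (hP.ends _ _ _ _ hp).2, v, (hP.ends _ _ _ _ hp).1, huv, he⟩
  · exact hP.tmem _ _ _ _ hp e he

theorem ca_edge1 (hP : PApi G) {a b : V} {S : Finset V} {T : Finset (Sym2 V)} {S1 S2 : Finset V}
    {T1 T2 : Finset (Sym2 V)} (h1 : Pth G a b S1 T1) (h2 : Pth G a b S2 T2)
    (h4 : S1 ∪ S2 = S) (h5 : Disjoint T1 T2) (h6 : T1 ∪ T2 = T) (hab : a ≠ b)
    (he : s(a, b) ∈ T1) : Pth G a b S (T.erase s(a, b)) := by
  obtain ⟨e1, e2⟩ := hP.single a b S1 T1 h1 hab (Or.inl he)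
  have e3 : S = S2 := by
    rw [← h4, e1]
    apply union_eq_right.2
    intro y hy
    rw [mem_insert, mem_singleton] at hy
    rcases hy with rfl | rfl
    · exact (hP.ends _ _ _ _ h2).1
    · exact (hP.ends _ _ _ _ h2).2
  have e4 : T.erase s(a, b) = T2 := by
    rw [← h6, e2]
    ext e
    rw [mem_erase, mem_union, mem_singleton]
    constructor
    · rintro ⟨h7, h8 | h8⟩
      · exact absurd h8 h7
      · exact h8
    · intro h7
      refine ⟨fun h8 => ?_, Or.inr h7⟩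
      rw [h8] at h7
      exact Finset.disjoint_left.1 h5 he h7
  rw [e3, e4]
  exact h2

/-- **Module CA.** -/
theorem st_CA (h : ST_PA) : ST_CA := by
  intro V _ G
  have hP := h V G
  have hcard : ∀ S T, Cyc G S T → 3 ≤ S.card ∧ T.card = S.card := by
    intro S T hc
    obtain ⟨u, v, T', huv, hp, hn, hT⟩ := ca_of hc
    refine ⟨?_, ?_⟩
    · by_contra hcon
      have h1 := hP.single v u S T' hp huv.ne' (Or.inr (by omega))
      apply hn
      rw [h1.2, mem_singleton]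
      exact Sym2.eq_swap
    · rw [hT, card_insert_of_notMem hn]
      exact hP.card _ _ _ _ hp
  have hother : ∀ S T v, Cyc G S T → v ∈ S → ∃ b ∈ S, v ≠ b := by
    intro S T v hc hv
    have h1 := (hcard S T hc).1
    obtain ⟨b, hb, hne⟩ := Finset.exists_mem_ne (by omega : 1 < S.card) v
    exact ⟨b, hb, hne.symm⟩
  have hconn : ∀ S T, Cyc G S T → Conn G S := by
    intro S T hc
    obtain ⟨u, v, T', huv, hp, hn, hT⟩ := ca_of hc
    exact hP.conn _ _ _ _ hp
  refine ⟨ca_mk2 hP, ca_split hP, ?_, ca_tmem hP, hconn, ?_, hcard, ?_, ?_⟩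
  · -- edge
    intro a b S T hc he
    obtain ⟨x, hx, y, hy, hxy, hE⟩ := ca_tmem hP S T hc _ he
    have hall : G.Adj a b ∧ a ∈ S ∧ b ∈ S := by
      rcases Sym2.eq_iff.1 hE with ⟨rfl, rfl⟩ | ⟨rfl, rfl⟩
      · exact ⟨hxy, hx, hy⟩
      · exact ⟨hxy.symm, hy, hx⟩
    obtain ⟨hadj, ha, hb⟩ := hall
    refine ⟨hadj.ne, hadj, ha, hb, ?_⟩
    obtain ⟨S1, T1, S2, T2, h1, h2, h3, h4, h5, h6⟩ := ca_split hP a b S T hc ha hb hadj.ne
    rw [← h6, mem_union] at he
    rcases he with he | he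
    · exact ca_edge1 hP h1 h2 h4 h5 h6 hadj.ne he
    · exact ca_edge1 hP h2 h1 (by rw [union_comm]; exact h4) h5.symm
        (by rw [union_comm]; exact h6) hadj.ne he
  · -- erase
    intro S T g hc
    by_cases hg : g ∈ S
    swap
    · rw [erase_eq_of_notMem hg]
      exact hconn S T hc
    obtain ⟨b, hb, hgb⟩ := hother S T g hc hg
    obtain ⟨S1, T1, S2, T2, h1, h2, h3, h4, h5, h6⟩ := ca_split hP g b S T hc hg hb hgb
    obtain ⟨x, S1', T1', hx1, hx2, hx3, hx4, _, _⟩ := hP.step g b S1 T1 h1 hgb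
    obtain ⟨y, S2', T2', hy1, hy2, hy3, hy4, _, _⟩ := hP.step g b S2 T2 h2 hgb
    have e1 : S.erase g = S1' ∪ S2' := by
      rw [← h4, hx4, hy4]
      ext z
      rw [mem_erase, mem_union, mem_insert, mem_insert, mem_union]
      constructor
      · rintro ⟨hz, (hz1 | hz1) | (hz1 | hz1)⟩
        · exact absurd hz1 hz
        · exact Or.inl hz1
        · exact absurd hz1 hz
        · exact Or.inr hz1
      · rintro (hz | hz)
        · exact ⟨fun h0 => hx3 (h0 ▸ hz), Or.inl (Or.inr hz)⟩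
        · exact ⟨fun h0 => hy3 (h0 ▸ hz), Or.inr (Or.inr hz)⟩
    rw [e1]
    exact (hP.conn _ _ _ _ hx2).union_of_mem (hP.conn _ _ _ _ hy2)
      (hP.ends _ _ _ _ hx2).2 (hP.ends _ _ _ _ hy2).2
  · -- deg
    intro S T v hc hv
    obtain ⟨b, hb, hvb⟩ := hother S T v hc hv
    obtain ⟨S1, T1, S2, T2, h1, h2, h3, h4, h5, h6⟩ := ca_split hP v b S T hc hv hb hvb
    have key : ∀ S1 T1, Pth G v b S1 T1 → ∃ x, T1.filter (fun e => v ∈ e) = {s(v, x)} := by
      intro S1 T1 h1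
      obtain ⟨x, S1', T1', hx1, hx2, hx3, hx4, hx5, hx6⟩ := hP.step v b S1 T1 h1 hvb
      refine ⟨x, ?_⟩
      rw [hx5]
      ext e
      rw [mem_filter, mem_insert, mem_singleton]
      constructor
      · rintro ⟨he | he, hve⟩
        · exact he
        · obtain ⟨y, hy, z, hz, _, hE⟩ := hP.tmem _ _ _ _ hx2 e he
          rw [hE, Sym2.mem_iff] at hve
          rcases hve with hve | hve
          · exact absurd (hve ▸ hy) hx3
          · exact absurd (hve ▸ hz) hx3
      · intro he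
        exact ⟨Or.inl he, by rw [he]; exact Sym2.mem_mk_left v x⟩
    obtain ⟨x, hx⟩ := key S1 T1 h1
    obtain ⟨y, hy⟩ := key S2 T2 h2
    rw [← h6, filter_union, card_union_of_disjoint
      (Finset.disjoint_filter_filter h5), hx, hy, card_singleton, card_singleton]
  · -- transfer
    intro G' S T hc hG
    obtain ⟨u, v, T', huv, hp, hn, hT⟩ := ca_of hc
    have h1 : Pth G' v u S T' := hP.transfer G' v u S T' hp fun e he =>
      hG e (by rw [hT]; exact mem_insert_of_mem he)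
    have h2 : G'.Adj u v := by
      have h3 := hG s(u, v) (by rw [hT]; exact mem_insert_self _ _)
      rwa [SimpleGraph.mem_edgeSet] at h3
    rw [hT]
    exact ca_mk h2 h1 hn

end ErdPos
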