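import Pool.Agent.Helper72.EP.Spec2

set_option autoImplicit false

/-! Module PEEL: first hull path of a path between torso vertices. -/

namespace ErdPos

open Finset

/-- a connected set meeting `A` and its complement contains an attachment -/
theorem peel_exit {V : Type} [DecidableEq V] {G : SimpleGraph V} {C A M Z : Finset V}
    (hZ : ∀ x ∈ A, x ∉ Z → ∀ y ∈ C, G.Adj x y → y ∈ A) (hM : Conn G M) (hMC : M ⊆ C)
    {y z : V} (hy : y ∈ M) (hyA : y ∈ A) (hz : z ∈ M) (hzA : z ∉ A) : ∃ q ∈ M, q ∈ Z := by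
  obtain ⟨_, hcut⟩ := hM
  obtain ⟨a, ha, b, hb, hab⟩ := hcut (M ∩ A) inter_subset_left ⟨y, mem_inter.2 ⟨hy, hyA⟩⟩
    (fun h => hzA (by
      rw [← h] at hz
      exact (mem_inter.1 hz).2))
  rw [mem_inter] at ha
  rw [mem_sdiff, mem_inter] at hb
  refine ⟨a, ha.1, ?_⟩
  by_contra hcon
  exact hb.2 ⟨hb.1, hZ a ha.2 hcon b (hMC hb.1) hab⟩

/-- **Module PEEL.** -/
theorem st_PEEL (h1 : ST_PA) (h2 : ST_ROB) (h3 : ST_HUL) (h4 : ST_HU3) : ST_PEEL := by
  intro V _ _ G F C hC s t S T hp hSC hst hs ht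
  have hP := h1 V G
  obtain ⟨hrob, _, _, _⟩ := h2 V G F C hC
  obtain ⟨hhul, hprop⟩ := h3 V G F C hC
  obtain ⟨_, hTV, hTR⟩ := h4 V G F C hC
  have hall := hrob s t S T hp hSC hst (hTR s hs) (hTR t ht)
  obtain ⟨x, S', T', hsx, hp', hsS', hS, hT, hnT⟩ := hP.step s t S T hp hst
  have hxS' : x ∈ S' := (hP.ends _ _ _ _ hp').1
  have htS' : t ∈ S' := (hP.ends _ _ _ _ hp').2
  have hS'S : S' ⊆ S := by
    rw [hS]
    exact subset_insert _ _
  have hS'C : S' ⊆ C := hS'S.trans hSC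
  obtain ⟨hA, hsA, hxA⟩ := hhul s x (hTR s hs) (hall x (hS'S hxS')) hsx
  obtain ⟨A, hAe⟩ : ∃ A, A = cl G F C 5 {s, x} := ⟨_, rfl⟩
  rw [← hAe] at hA hsA hxA
  obtain ⟨_, _, _, _, hZ2, hZA, _, _, _, hZn, _⟩ := hprop A hA
  have hsZ : s ∈ Zt G C A := hTV A hA s hsA hs
  obtain ⟨s', hs'Z, hs's⟩ := Finset.exists_mem_ne (by omega : 1 < (Zt G C A).card) s
  have hZe : Zt G C A = {s, s'} := by
    symm
    apply Finset.eq_of_subset_of_card_le
    · intro y hy
      rw [mem_insert, mem_singleton] at hy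
      rcases hy with rfl | rfl
      · exact hsZ
      · exact hs'Z
    · rw [hZ2, Finset.card_pair hs's.symm]
  have hs'A : s' ∈ A := hZA hs'Z
  -- a connected subset of the rest which leaves `A` contains `s'`
  have hex : ∀ M, Conn G M → M ⊆ S' → ∀ y ∈ M, y ∈ A → ∀ z ∈ M, z ∉ A → s' ∈ M := by
    intro M hM hMS y hy hyA z hz hzA
    obtain ⟨q, hq, hqZ⟩ := peel_exit hZn hM (hMS.trans hS'C) hy hyA hz hzA
    rw [hZe, mem_insert, mem_singleton] at hqZ
    rcases hqZ with rfl | rfl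
    · exact absurd (hMS hq) hsS'
    · exact hq
  have htA : t ∈ A → t = s' := by
    intro h
    have h5 := hTV A hA t h ht
    rw [hZe, mem_insert, mem_singleton] at h5
    rcases h5 with h5 | h5
    · exact absurd h5.symm hst
    · exact h5
  have hs'S : s' ∈ S' := by
    by_cases h : t ∈ A
    · rw [← htA h]
      exact htS'
    · exact hex S' (hP.conn _ _ _ _ hp') (Subset.refl _) x hxS' hxA t htS' h
  obtain ⟨Sa, Ta, Sb, Tb, ka, kb, kab, kS, kT, kTT⟩ := hP.split x t s' S' T' hp' hs'S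
  have hSaS : Sa ⊆ S' := by
    rw [← kS]
    exact subset_union_left
  have hSbS : Sb ⊆ S' := by
    rw [← kS]
    exact subset_union_right
  have hSaA : Sa ⊆ A := by
    intro z hz
    by_contra hzA
    obtain ⟨Sc, Tc, Sd, Td, mc, md, mcd, mS, _, _⟩ := hP.split x s' z Sa Ta ka hz
    have hScS : Sc ⊆ Sa := by
      rw [← mS]
      exact subset_union_left
    have h5 := hex Sc (hP.conn _ _ _ _ mc) (hScS.trans hSaS) x (hP.ends _ _ _ _ mc).1 hxA z
      (hP.ends _ _ _ _ mc).2 hzA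
    have h6 : s' ∈ Sc ∩ Sd := mem_inter.2 ⟨h5, (hP.ends _ _ _ _ md).2⟩
    rw [mcd, mem_singleton] at h6
    rw [h6] at hs'A
    exact hzA hs'A
  have hSbA : Sb ∩ A = {s'} := by
    ext y
    rw [mem_inter, mem_singleton]
    constructor
    · rintro ⟨hy, hyA⟩
      by_contra hne
      by_cases h : t ∈ A
      · have h5 := htA h
        rw [h5] at kb
        have h6 := (hP.triv s' Sb Tb kb).1
        rw [h6, mem_singleton] at hy
        exact hne hy
      · obtain ⟨Sc, Tc, Sd, Td, mc, md, mcd, mS, _, _⟩ := hP.split s' t y Sb Tb kb hy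
        have hSdS : Sd ⊆ Sb := by
          rw [← mS]
          exact subset_union_right
        have h5 := hex Sd (hP.conn _ _ _ _ md) (hSdS.trans hSbS) y (hP.ends _ _ _ _ md).1 hyA t
          (hP.ends _ _ _ _ md).2 h
        have h6 : s' ∈ Sc ∩ Sd := mem_inter.2 ⟨(hP.ends _ _ _ _ mc).1, h5⟩
        rw [mcd, mem_singleton] at h6
        exact hne h6.symm
    · rintro rfl
      exact ⟨(hP.ends _ _ _ _ kb).1, hs'A⟩
  have hsSa : s ∉ Sa := fun h => hsS' (hSaS h)
  have hsSb : s ∉ Sb := fun h => hsS' (hSbS h)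
  have hxSa : x ∈ Sa := (hP.ends _ _ _ _ ka).1
  have c1 := (hP.concat s x s' {s, x} {s(s, x)} Sa Ta (hP.edge s x hsx) ka (by
    intro y hy
    rw [mem_inter, mem_insert, mem_singleton] at hy
    rcases hy.1 with h | h
    · rw [h] at hy
      exact absurd hy.2 hsSa
    · exact mem_singleton.2 h)).1
  refine ⟨A, s', {s, x} ∪ Sa, {s(s, x)} ∪ Ta, Sb, Tb, ⟨hA, hZe, hs's.symm, c1, ?_⟩, kb, hSbA, ?_,
    ?_, ?_, ?_, ⟨A, hA, hs'Z⟩, hsSb⟩
  · intro y hy
    rw [mem_union, mem_insert, mem_singleton] at hy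
    rcases hy with (rfl | rfl) | hy
    · exact hsA
    · exact hxA
    · exact hSaA hy
  · ext y
    rw [mem_inter, mem_union, mem_insert, mem_singleton, mem_singleton]
    constructor
    · rintro ⟨(rfl | rfl) | hy, hyb⟩
      · exact absurd hyb hsSb
      · have h5 : y ∈ Sa ∩ Sb := mem_inter.2 ⟨hxSa, hyb⟩
        rw [kab, mem_singleton] at h5
        exact h5
      · have h5 : y ∈ Sa ∩ Sb := mem_inter.2 ⟨hy, hyb⟩
        rw [kab, mem_singleton] at h5
        exact h5
    · rintro rfl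
      exact ⟨Or.inr (hP.ends _ _ _ _ ka).2, (hP.ends _ _ _ _ kb).1⟩
  · rw [hS, ← kS]
    ext y
    rw [mem_union, mem_union, mem_insert, mem_singleton, mem_insert, mem_union]
    constructor
    · rintro (((rfl | rfl) | hy) | hy)
      · exact Or.inl rfl
      · exact Or.inr (Or.inl hxSa)
      · exact Or.inr (Or.inl hy)
      · exact Or.inr (Or.inr hy)
    · rintro (rfl | hy | hy)
      · exact Or.inl (Or.inl (Or.inl rfl))
      · exact Or.inl (Or.inr hy)
      · exact Or.inr hy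
  · rw [Finset.disjoint_left]
    intro e he he'
    rw [mem_union, mem_singleton] at he
    rcases he with rfl | he
    · exact hnT (by rw [← kTT]; exact mem_union_right _ he')
    · exact Finset.disjoint_left.1 kT he he'
  · rw [hT, ← kTT]
    ext e
    rw [mem_union, mem_union, mem_singleton, mem_insert, mem_union]
    tauto

end ErdPos
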